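import Mathlib
import Pool.Agent.H13.Braid2

set_option autoImplicit false
open Pool.Agent.H13.Braid

namespace Pool.Agent.Results.MP_de0ecf_co.Diam

theorem result (B W : Type) [Group W] (M : CoxeterMatrix B) (cs : CoxeterSystem M W)
    (_hS : SimplyLaced M) (hT : TriangleFree M) (α : List B) (hα : cs.IsReduced α) :
    (Shadows M α).Finite ∧ (graph M α).ediam = ((Shadows M α).ncard : ℕ∞) := by
  obtain ⟨D, h1, h2, -⟩ := both_dims cs hT hα
  refine ⟨(Set.finite_Iio α.length).subset ?_, by rw [h1, h2]⟩
  rintro i ⟨β, hβ, p, q, s, t, -, e, rfl⟩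
  have : β.length = α.length := by
    clear e
    induction hβ with
    | refl => rfl
    | tail _ h ih =>
      obtain ⟨p, q, s, t, -, rfl, rfl⟩ := h
      simpa using ih
  rw [Set.mem_Iio, ← this, e]
  simp

end Pool.Agent.Results.MP_de0ecf_co.Diam
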